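import Pool.Agent.Zk45.AT.Law
import Pool.Agent.W66.LU

set_option autoImplicit false

/-!
# Negation of a random residue, and the special point
-/

open Filter Topology Finset MeasureTheory
open scoped Real

namespace Pool.Agent.Zk45.AT

open Pool.Agent.W66 Pool.Agent.W66L
open Pool.Agent.H305R2 (roughPart)

/-- the residues of `-α` -/
lemma Full.neg {Ω : Type*} [MeasurableSpace Ω] {μ : Measure Ω} {b : ℕ} {s : ℕ → Ω → ℕ}
    (hb : 2 ≤ b) (hs : Full b μ s) : Full b μ (fun n x => (b ^ n - s n x) % b ^ n) := by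
  have hlt : ∀ n x, s n x < b ^ n := fun n x => by
    rw [← hs.compat n x]
    exact Nat.mod_lt _ (by positivity)
  refine ⟨fun n => ?_, fun n x => ?_, fun n a ha => ?_⟩
  · exact (measurable_from_nat (f := fun y : ℕ => (b ^ n - y) % b ^ n)).comp (hs.meas n)
  · show (b ^ (n + 1) - s (n + 1) x) % b ^ (n + 1) % b ^ n = (b ^ n - s n x) % b ^ n
    rw [Nat.mod_mod_of_dvd _ (pow_dvd_pow b (Nat.le_succ n))]
    have h1 : s (n + 1) x ≤ b ^ (n + 1) := (hlt (n + 1) x).le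
    have h2 : s n x ≤ b ^ n := (hlt n x).le
    have h3 : ((b ^ (n + 1) - s (n + 1) x : ℕ) : ℤ) ≡ ((b ^ n - s n x : ℕ) : ℤ) [ZMOD (b ^ n : ℕ)] := by
      rw [Nat.cast_sub h1, Nat.cast_sub h2]
      apply Int.ModEq.sub
      · have e1 : ((b ^ (n + 1) : ℕ) : ℤ) ≡ 0 [ZMOD (b ^ n : ℕ)] := by
          rw [Int.modEq_zero_iff_dvd]
          exact_mod_cast pow_dvd_pow b (Nat.le_succ n)
        have e2 : ((b ^ n : ℕ) : ℤ) ≡ 0 [ZMOD (b ^ n : ℕ)] := by
          rw [Int.modEq_zero_iff_dvd]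
        exact e1.trans e2.symm
      · rw [Int.natCast_modEq_iff]
        have h4 := hs.compat n x
        rw [Nat.ModEq, h4, Nat.mod_eq_of_lt (hlt n x)]
    exact (Int.natCast_modEq_iff.1 h3)
  · have hset : {x | (b ^ n - s n x) % b ^ n = a} = {x | s n x = (b ^ n - a) % b ^ n} := by
      ext x
      simp only [Set.mem_ofPred_eq]
      have h1 := hlt n x
      rcases Nat.eq_zero_or_pos (s n x) with h2 | h2
      · rw [h2, Nat.sub_zero, Nat.mod_self]
        rcases Nat.eq_zero_or_pos a with h3 | h3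
        · rw [h3]; simp
        · rw [Nat.mod_eq_of_lt (by omega)]
          omega
      · rw [Nat.mod_eq_of_lt (by omega)]
        rcases Nat.eq_zero_or_pos a with h3 | h3
        · rw [h3, Nat.sub_zero, Nat.mod_self]
          omega
        · rw [Nat.mod_eq_of_lt (by omega)]
          omega
    show μ.real {x | (b ^ n - s n x) % b ^ n = a} = _
    rw [hset]
    exact hs.unif n _ (Nat.mod_lt _ (by positivity))

/-- the residues of the `a`-adic integer `-1 / e`, `e` prime to `a` -/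
lemma exists_res {a : ℕ} (ha : 2 ≤ a) {e : ℤ} (he : IsCoprime (a : ℤ) e) :
    ∃ x : ℕ → ℕ, (∀ n, x n < a ^ n) ∧ (∀ n, x (n + 1) % a ^ n = x n) ∧
      ∀ n, ((a : ℤ) ^ n) ∣ e * x n + 1 := by
  have h1 : ∀ n : ℕ, ∃ x : ℕ, x < a ^ n ∧ ((a : ℤ) ^ n) ∣ e * x + 1 := by
    intro n
    obtain ⟨u, v, huv⟩ := (he.symm.pow_right (n := n))
    -- u * e + v * a ^ n = 1
    have hapos : (0 : ℤ) < (a : ℤ) ^ n := by positivity
    refine ⟨((-u) % (a : ℤ) ^ n).toNat, ?_, ?_⟩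
    · have h2 := Int.emod_lt_of_pos (-u) hapos
      have h3 := Int.emod_nonneg (-u) hapos.ne'
      have h4 : ((((-u) % (a : ℤ) ^ n).toNat : ℕ) : ℤ) < ((a ^ n : ℕ) : ℤ) := by
        rw [Int.toNat_of_nonneg h3]
        push_cast
        exact h2
      exact_mod_cast h4
    · have h3 := Int.emod_nonneg (-u) hapos.ne'
      rw [Int.toNat_of_nonneg h3]
      have h4 : (-u) % (a : ℤ) ^ n = -u - (a : ℤ) ^ n * ((-u) / (a : ℤ) ^ n) := by
        rw [Int.emod_def]
      rw [h4]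
      refine ⟨v - e * ((-u) / (a : ℤ) ^ n), ?_⟩
      linear_combination -huv
  choose x hx1 hx2 using h1
  refine ⟨x, hx1, fun n => ?_, hx2⟩
  have h3 : ((a : ℤ) ^ n) ∣ e * (x (n + 1) : ℤ) + 1 :=
    (pow_dvd_pow (a : ℤ) (Nat.le_succ n)).trans (hx2 (n + 1))
  have h4 : ((a : ℤ) ^ n) ∣ e * ((x (n + 1) : ℤ) - x n) := by
    have := dvd_sub h3 (hx2 n)
    have e1 : e * (x (n + 1) : ℤ) + 1 - (e * (x n : ℤ) + 1) = e * ((x (n + 1) : ℤ) - x n) := by ring
    rwa [e1] at this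
  have h5 : ((a : ℤ) ^ n) ∣ (x (n + 1) : ℤ) - x n :=
    (IsCoprime.pow_left he).dvd_of_dvd_mul_left h4
  have h6 : x n ≡ x (n + 1) [MOD a ^ n] := by
    rw [Nat.modEq_iff_dvd]
    push_cast
    exact h5
  have h7 : x n % a ^ n = x (n + 1) % a ^ n := h6
  rw [← h7, Nat.mod_eq_of_lt (hx1 n)]

/-- the digits of a compatible sequence of residues -/
lemma exists_digits {a : ℕ} [NeZero a] {x : ℕ → ℕ} (hx1 : ∀ n, x n < a ^ n)
    (hx2 : ∀ n, x (n + 1) % a ^ n = x n) : ∃ d : ℕ → Fin a, ∀ n, dsum a n d = x n := by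
  have ha : 0 < a := Nat.pos_of_ne_zero (NeZero.ne a)
  refine ⟨fun n => ⟨x (n + 1) / a ^ n, ?_⟩, fun n => ?_⟩
  · rw [Nat.div_lt_iff_lt_mul (by positivity), mul_comm, ← pow_succ]
    exact hx1 (n + 1)
  · induction n with
    | zero =>
      have := hx1 0
      rw [pow_zero] at this
      unfold dsum
      simp
      omega
    | succ n ih =>
      rw [dsum_succ, ih]
      have h1 := Nat.mod_add_div (x (n + 1)) (a ^ n)
      rw [hx2 n] at h1
      rw [mul_comm]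
      exact h1

/-- the value at the special point -/
lemma special_val {a : ℕ} {b : ℤ} (ha : 2 ≤ a) (h1 : -(a : ℤ) < b) (h2 : b < a)
    (hab : IsCoprime (a : ℤ) b) {p x m : ℕ} (hp : p ≠ 0)
    (hx : ((a : ℤ) ^ p) ∣ ((a : ℤ) - b) * x + 1) (hm : (m : ℤ) * ((a : ℤ) - b) = (a : ℤ) ^ p - b ^ p) :
    (((x : ℤ) * b ^ p) % (a : ℤ) ^ p).toNat = m := by
  have hapos : (0 : ℤ) < (a : ℤ) ^ p := by positivity
  have hce : IsCoprime (a : ℤ) ((a : ℤ) - b) := by
    obtain ⟨u, v, huv⟩ := hab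
    exact ⟨u + v, -v, by linear_combination huv⟩
  have hd : ((a : ℤ) ^ p) ∣ (x : ℤ) * b ^ p - m := by
    refine (IsCoprime.pow_left (m := p) hce).dvd_of_dvd_mul_left ?_
    have e1 : ((a : ℤ) - b) * ((x : ℤ) * b ^ p - m) =
        (((a : ℤ) - b) * x + 1) * b ^ p - (a : ℤ) ^ p := by
      linear_combination -hm
    rw [e1]
    exact dvd_sub (hx.mul_right _) dvd_rfl
  have hmlt : (m : ℤ) < (a : ℤ) ^ p := by
    have hb : |b| < (a : ℤ) := abs_lt.2 ⟨h1, h2⟩
    have hbp : |b ^ p| < (a : ℤ) ^ p := by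
      rw [abs_pow]
      exact pow_lt_pow_left₀ hb (abs_nonneg _) hp
    have hab1 : 1 ≤ (a : ℤ) - b := by omega
    by_contra hcon
    push Not at hcon
    have h3 : (a : ℤ) ^ p * ((a : ℤ) - b) ≤ m * ((a : ℤ) - b) :=
      mul_le_mul_of_nonneg_right hcon (by omega)
    rw [hm] at h3
    have h4 := (abs_lt.1 hbp).1
    rcases lt_or_ge b 0 with h5 | h5
    · have h6 : (a : ℤ) ^ p * 2 ≤ (a : ℤ) ^ p * ((a : ℤ) - b) :=
        mul_le_mul_of_nonneg_left (by omega) hapos.le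
      linarith
    · have h6 : (a : ℤ) ^ p * 1 ≤ (a : ℤ) ^ p * ((a : ℤ) - b) :=
        mul_le_mul_of_nonneg_left hab1 hapos.le
      rcases eq_or_lt_of_le h5 with h7 | h7
      · -- b = 0 : then a is a unit
        exfalso
        rw [← h7] at hab
        have h8 := Int.isUnit_iff.1 (isCoprime_zero_right.1 hab)
        omega
      · have h8 : 0 < b ^ p := by positivity
        linarith
  have h3 : ((x : ℤ) * b ^ p) % (a : ℤ) ^ p = (m : ℤ) := by
    have h4 : ((m : ℤ)) ≡ (x : ℤ) * b ^ p [ZMOD (a : ℤ) ^ p] := Int.modEq_iff_dvd.2 hd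
    have h5 : (m : ℤ) % (a : ℤ) ^ p = ((x : ℤ) * b ^ p) % (a : ℤ) ^ p := h4
    rw [← h5, Int.emod_eq_of_lt (Int.natCast_nonneg m) hmlt]
  rw [h3]
  simp

end Pool.Agent.Zk45.AT
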