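import Pool.Agent.Zk45.AT.Corr
import Pool.Agent.W66.LT

set_option autoImplicit false

/-!
# The almost sure law for the twisted low digits
-/

open Filter Topology Finset MeasureTheory
open scoped Real

namespace Pool.Agent.Zk45.AT

open Pool.Agent.W66 Pool.Agent.W66L
open Pool.Agent.H305R2 (roughPart smp smp_mono one_le_smp log_smp_ge log_smp_le tendsto_smp log_smp_div
  log_nat_tendsto cesaro)

/-- `r n` is the residue modulo `b ^ n` of a random `b`-adic unit times `c ^ n` -/
structure LowT {Ω : Type*} [MeasurableSpace Ω] (b c : ℕ) (μ : Measure Ω) (r : ℕ → Ω → ℕ) : Prop where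
  meas : ∀ n, Measurable (r n)
  lt : ∀ n x, r n x < b ^ n
  compat : ∀ p h x, r (p + h) x ≡ c ^ h * r p x [MOD b ^ p]
  unif : ∀ n, 1 ≤ n → ∀ a, a < b ^ n → a.Coprime b →
    μ.real {x | r n x = a} = 1 / ((b ^ n).totient : ℝ)

lemma exists_inv {b c : ℕ} (hb : 2 ≤ b) (hcop : c.Coprime b) : ∃ U : ℕ → ℕ → ℕ,
    (∀ p q, 1 ≤ p → (U p q).Coprime b) ∧
    (∀ p q, 1 ≤ p → p < q → U p q * c ^ (q - p) ≡ 1 [MOD b ^ p]) := by
  have h1 : ∀ p : ℕ, 1 ≤ p → ∃ v : ℕ, c * v ≡ 1 [MOD b ^ p] := by
    intro p hp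
    have h2 : 1 < b ^ p := Nat.one_lt_pow (by omega) (by omega)
    obtain ⟨v, -, hv⟩ := Nat.exists_mul_mod_eq_one_of_coprime (Nat.Coprime.pow_right p hcop) h2
    exact ⟨v, by rw [Nat.ModEq, hv, Nat.mod_eq_of_lt h2]⟩
  choose! v hv using h1
  refine ⟨fun p q => v p ^ (q - p), fun p q hp => ?_, fun p q hp _ => ?_⟩
  · apply Nat.Coprime.pow_left
    have h3 : (c * v p).Coprime b := by
      have h4 : c * v p ≡ 1 [MOD b] := (hv p hp).of_dvd (dvd_pow_self b (by omega))
      rw [Nat.Coprime, h4.gcd_eq]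
      simp
    exact Nat.Coprime.coprime_mul_left h3
  · rw [← mul_pow, mul_comm]
    have h5 := (hv p hp).pow (q - p)
    rwa [one_pow] at h5

section law

variable {Ω : Type*} [MeasurableSpace Ω] {μ : Measure Ω} [IsProbabilityMeasure μ] {b c : ℕ}
  {r : ℕ → Ω → ℕ}

omit [IsProbabilityMeasure μ] in
lemma LowT.measSet (hr : LowT b c μ r) (n a : ℕ) : MeasurableSet {x | r n x = a} :=
  (hr.meas n) (measurableSet_singleton a)

omit [IsProbabilityMeasure μ] in
lemma LowT.expand (hr : LowT b c μ r) (n : ℕ) (f : ℕ → ℝ) (x : Ω) :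
    f (r n x) = ∑ a ∈ range (b ^ n), Set.indicator {x | r n x = a} (fun _ => f a) x := by
  rw [Finset.sum_eq_single (r n x)]
  · rw [Set.indicator_of_mem]
    rfl
  · intro a _ ha
    rw [Set.indicator_of_notMem]
    exact fun h => ha h.symm
  · intro h
    exact absurd (mem_range.2 (hr.lt n x)) h

lemma LowT.integral_all (hr : LowT b c μ r) (n : ℕ) (f : ℕ → ℝ) :
    ∫ x, f (r n x) ∂μ = ∑ a ∈ range (b ^ n), f a * μ.real {x | r n x = a} := by
  have h1 : ∀ x, f (r n x) = ∑ a ∈ range (b ^ n), Set.indicator {x | r n x = a} (fun _ => f a) x :=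
    fun x => hr.expand n f x
  simp only [h1]
  rw [integral_finsetSum]
  · refine Finset.sum_congr rfl fun a _ => ?_
    rw [integral_indicator (hr.measSet n a), setIntegral_const, smul_eq_mul, mul_comm]
  · intro a _
    exact (integrable_const (f a)).indicator (hr.measSet n a)

lemma LowT.zero_of_not (hr : LowT b c μ r) (hb : 2 ≤ b) {n : ℕ} (hn : 1 ≤ n) :
    ∀ a ∈ range (b ^ n), ¬ a.Coprime b → μ.real {x | r n x = a} = 0 := by
  have h1 := hr.integral_all n (fun _ => (1 : ℝ))
  simp only [one_mul] at h1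
  rw [integral_const, smul_eq_mul, mul_one, probReal_univ,
    ← Finset.sum_filter_add_sum_filter_not (range (b ^ n)) (fun a => a.Coprime b)] at h1
  have h2 : ∑ a ∈ (range (b ^ n)).filter (fun a => a.Coprime b), μ.real {x | r n x = a} = 1 := by
    have h3 : ∀ a ∈ (range (b ^ n)).filter (fun a => a.Coprime b),
        μ.real {x | r n x = a} = 1 / ((b ^ n).totient : ℝ) := by
      intro a ha
      rw [mem_filter, mem_range] at ha
      exact hr.unif n hn a ha.1 ha.2
    rw [Finset.sum_congr rfl h3, Finset.sum_const, nsmul_eq_mul]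
    have h4 : (((range (b ^ n)).filter (fun a => a.Coprime b)).card : ℝ) = ((b ^ n).totient : ℝ) := by
      have := card_UU hb hn
      unfold UU at this
      exact_mod_cast this
    rw [h4]
    have := tot_pow_pos hb n
    field_simp
  rw [h2] at h1
  have h5 : ∑ a ∈ (range (b ^ n)).filter (fun a => ¬ a.Coprime b), μ.real {x | r n x = a} = 0 := by
    linarith
  intro a ha hc
  exact (Finset.sum_eq_zero_iff_of_nonneg (fun i _ => measureReal_nonneg)).1 h5 a
    (mem_filter.2 ⟨ha, hc⟩)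

/-- expectations of functions of the residue -/
lemma LowT.integral (hr : LowT b c μ r) (hb : 2 ≤ b) {n : ℕ} (hn : 1 ≤ n) (f : ℕ → ℝ) :
    ∫ x, f (r n x) ∂μ = (∑ a ∈ UU b n, f a) / ((b ^ n).totient : ℝ) := by
  rw [hr.integral_all n f]
  unfold UU
  rw [Finset.sum_div, Finset.sum_filter]
  refine Finset.sum_congr rfl fun a ha => ?_
  by_cases hc : a.Coprime b
  · rw [if_pos hc, hr.unif n hn a (mem_range.1 ha) hc]
    ring
  · rw [if_neg hc, hr.zero_of_not hb hn a ha hc, mul_zero]

omit [IsProbabilityMeasure μ] in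
lemma LowT.Gc_meas (hr : LowT b c μ r) (p : ℕ) : Measurable (Gc b r p) := by
  unfold Gc
  split_ifs
  · exact (measurable_from_nat (f := rpi p)).comp (hr.meas p) |>.sub_const _
  · exact measurable_const

lemma LowT.Gc_diag (hr : LowT b c μ r) (hb : 2 ≤ b) (p : ℕ) (hp1 : 1 ≤ p) :
    ∫ x, (Gc b r p x) ^ 2 ∂μ ≤ mq b p := by
  by_cases hp : p.Prime
  · have h1 : ∀ x, (Gc b r p x) ^ 2 = (fun m : ℕ => (rpi p m - mq b p) ^ 2) (r p x) := by
      intro x
      unfold Gc
      rw [if_pos hp]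
    simp only [h1]
    have h2 := hr.integral hb hp1 (fun m : ℕ => (rpi p m - mq b p) ^ 2)
    rw [h2, div_le_iff₀ (tot_pow_pos hb p)]
    have h3 : ∀ m : ℕ, (rpi p m - mq b p) ^ 2 = rpi p m - 2 * mq b p * rpi p m + mq b p ^ 2 := by
      intro m
      have : rpi p m ^ 2 = rpi p m := by unfold rpi; split_ifs <;> norm_num
      calc (rpi p m - mq b p) ^ 2 = rpi p m ^ 2 - 2 * mq b p * rpi p m + mq b p ^ 2 := by ring
        _ = _ := by rw [this]
    simp only [h3]
    rw [Finset.sum_add_distrib, Finset.sum_sub_distrib, ← Finset.mul_sum, sum_UU_rpi hb,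
      Finset.sum_const, nsmul_eq_mul, card_UU hb hp1]
    have h4 := tot_pow_pos hb p
    nlinarith [sq_nonneg (mq b p), mul_nonneg (sq_nonneg (mq b p)) h4.le]
  · have h1 : ∀ x, (Gc b r p x) ^ 2 = 0 := by
      intro x
      unfold Gc
      rw [if_neg hp]
      norm_num
    simp only [h1]
    rw [integral_zero]
    exact mq_nonneg b p

lemma LowT.Gc_prod (hr : LowT b c μ r) (hb : 2 ≤ b) {p q u : ℕ} (hp : p.Prime) (hpq : p < q)
    (hu : u * c ^ (q - p) ≡ 1 [MOD b ^ p]) :
    |∫ x, Gc b r p x * Gc b r q x ∂μ| ≤ |CT b p q u| := by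
  have hmod : ∀ x, (u * r q x) % b ^ p = r p x := by
    intro x
    have h1 := hr.compat p (q - p) x
    rw [Nat.add_sub_cancel' hpq.le] at h1
    have h2 : u * r q x ≡ r p x [MOD b ^ p] := by
      calc u * r q x ≡ u * (c ^ (q - p) * r p x) [MOD b ^ p] := h1.mul_left u
        _ = (u * c ^ (q - p)) * r p x := by ring
        _ ≡ 1 * r p x [MOD b ^ p] := hu.mul_right _
        _ = r p x := one_mul _
    have h3 : (u * r q x) % b ^ p = r p x % b ^ p := h2
    rw [h3, Nat.mod_eq_of_lt (hr.lt p x)]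
  by_cases hq : q.Prime
  · have h1 : ∀ x, Gc b r p x * Gc b r q x =
        (fun m : ℕ => (rpi p ((u * m) % b ^ p) - mq b p) * (rpi q m - mq b q)) (r q x) := by
      intro x
      unfold Gc
      rw [if_pos hp, if_pos hq]
      simp only
      rw [hmod x]
    simp only [h1]
    have h2 := hr.integral hb (n := q) (by omega)
      (fun m : ℕ => (rpi p ((u * m) % b ^ p) - mq b p) * (rpi q m - mq b q))
    rw [h2]
    exact le_rfl
  · have h1 : ∀ x, Gc b r p x * Gc b r q x = 0 := by
      intro x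
      unfold Gc
      rw [if_neg hq, mul_zero]
    simp only [h1]
    rw [integral_zero, abs_zero]
    exact abs_nonneg _

/-- **The almost sure law.** -/
theorem law_low (hb : 2 ≤ b) (hc : 1 ≤ c) (hcb : c ≤ b) (hcop : c.Coprime b)
    (hr : LowT b c μ r) : ∀ᵐ x ∂μ,
    Tendsto (fun n : ℕ => (cntR (fun p => r p x) n : ℝ) / Real.log n) atTop
      (𝓝 (Real.exp Real.eulerMascheroniConstant / Real.log b)) := by
  obtain ⟨U, hU1, hU2⟩ := exists_inv hb hcop
  obtain ⟨C, hC, P, hP3, hrow⟩ := CT_row hb hc hcb U hU1 hU2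
  obtain ⟨K, hK, hmq⟩ := mq_le hb
  obtain ⟨P1, hP1⟩ := eventually_atTop.1 hmq
  have hw0 : ∀ m : ℕ, 0 ≤ Real.log m / m := fun m =>
    div_nonneg (Real.log_natCast_nonneg m) (Nat.cast_nonneg m)
  set P' := P + P1 with hP'
  have hmain := Pool.Agent.W66S.ae_abs (μ := μ) (G := Gc b r) (hr.Gc_meas) (Gc_le hb) (C := C + K)
    (by positivity) (P := P') (by omega)
    (by
      intro p hp
      refine ((hr.Gc_diag hb p (by omega)).trans (hP1 p (by omega))).trans ?_
      exact mul_le_mul_of_nonneg_right (by linarith) (hw0 p))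
    (by
      intro q hq
      have hq3 : (3 : ℝ) ≤ q := by exact_mod_cast (by omega : 3 ≤ q)
      have hll : 0 ≤ Real.log (Real.log q) := by
        refine Real.log_nonneg ?_
        rw [Real.le_log_iff_exp_le (by linarith)]
        have := Real.exp_one_lt_d9
        linarith
      calc ∑ p ∈ (Finset.Ico P' q).filter Nat.Prime, |∫ x, Gc b r p x * Gc b r q x ∂μ| ≤
          ∑ p ∈ (Finset.Ico P' q).filter Nat.Prime, |CT b p q (U p q)| := by
            refine Finset.sum_le_sum fun p hp => ?_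
            rw [mem_filter, mem_Ico] at hp
            exact hr.Gc_prod hb hp.2 hp.1.2 (hU2 p q hp.2.pos hp.1.2)
        _ ≤ ∑ p ∈ (Finset.Ico P q).filter Nat.Prime, |CT b p q (U p q)| := by
            apply Finset.sum_le_sum_of_subset_of_nonneg
            · intro p hp
              rw [mem_filter, mem_Ico] at hp
              rw [mem_filter, mem_Ico]
              exact ⟨⟨by omega, hp.1.2⟩, hp.2⟩
            · intro _ _ _; exact abs_nonneg _
        _ ≤ C * ((Real.log q / q) * (1 + Real.log (Real.log q))) := hrow q (by omega)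
        _ ≤ _ := by
            apply mul_le_mul_of_nonneg_right (by linarith)
            exact mul_nonneg (hw0 q) (by linarith))
  filter_upwards [hmain] with x hx
  set L := Real.exp Real.eulerMascheroniConstant / Real.log b with hL
  set F : ℕ → ℝ := fun n => ∑ p ∈ (Finset.Icc 1 n).filter Nat.Prime, rpi p (r p x) with hF
  have hFe : ∀ n : ℕ, (cntR (fun p => r p x) n : ℝ) = F n := fun n => cntR_eq (fun p => r p x) n
  simp only [hFe]
  have hFmono : Monotone F := by
    intro m n h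
    simp only [hF]
    refine Finset.sum_le_sum_of_subset_of_nonneg ?_ fun p _ _ => rpi_nonneg p _
    exact Finset.filter_subset_filter _ (Finset.Icc_subset_Icc_right h)
  have hF0 : ∀ n, 0 ≤ F n := fun n => Finset.sum_nonneg fun p _ => rpi_nonneg p _
  refine all_n_mono hFmono hF0 ?_
  have hmean : Tendsto (fun n : ℕ => (∑ p ∈ (Finset.Icc 1 n).filter Nat.Prime, mq b p) /
      Real.log n) atTop (𝓝 L) := cesaro (mq b) _ (mq_tendsto hb)
  have hsq : Tendsto (fun k : ℕ => k ^ 2) atTop atTop := tendsto_pow_atTop two_ne_zero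
  have h1 := (hmean.comp tendsto_smp).comp hsq
  have h2 := log_smp_div.comp hsq
  have h3 := h1.mul h2
  rw [mul_one] at h3
  have h4 : Tendsto (fun k : ℕ => ((P' : ℝ) + 1) / ((k ^ 2 : ℕ) : ℝ)) atTop (𝓝 0) :=
    (tendsto_natCast_atTop_atTop.comp hsq).const_div_atTop _
  have hsub : ∀ n : ℕ, |F n - (∑ p ∈ (Finset.Icc 1 n).filter Nat.Prime, mq b p) -
      ∑ p ∈ (Finset.Icc P' n).filter Nat.Prime, Gc b r p x| ≤ P' + 1 := by
    intro n
    have g1 : F n - (∑ p ∈ (Finset.Icc 1 n).filter Nat.Prime, mq b p) =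
        ∑ p ∈ (Finset.Icc 1 n).filter Nat.Prime, Gc b r p x := by
      simp only [hF]
      rw [← Finset.sum_sub_distrib]
      refine Finset.sum_congr rfl fun p hp => ?_
      unfold Gc
      rw [if_pos (mem_filter.1 hp).2]
    have g2 : ∑ p ∈ (Finset.Icc 1 n).filter Nat.Prime, Gc b r p x =
        ∑ p ∈ (Finset.Icc P' n).filter Nat.Prime, Gc b r p x +
        ∑ p ∈ ((Finset.Icc 1 n).filter Nat.Prime).filter (fun p => p < P'), Gc b r p x := by
      rw [← Finset.sum_filter_add_sum_filter_not ((Finset.Icc 1 n).filter Nat.Prime)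
        (fun p => p < P'), add_comm]
      congr 1
      refine Finset.sum_congr ?_ fun _ _ => rfl
      ext p
      simp only [Finset.mem_filter, Finset.mem_Icc, not_lt]
      constructor
      · rintro ⟨⟨⟨h1, h2⟩, h3⟩, h4⟩
        exact ⟨⟨h4, h2⟩, h3⟩
      · rintro ⟨⟨h1, h2⟩, h3⟩
        exact ⟨⟨⟨h3.one_lt.le, h2⟩, h3⟩, h1⟩
    rw [g1, g2, add_sub_cancel_left]
    refine (Finset.abs_sum_le_sum_abs _ _).trans ?_
    calc ∑ p ∈ ((Finset.Icc 1 n).filter Nat.Prime).filter (fun p => p < P'), |Gc b r p x|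
        ≤ ∑ p ∈ ((Finset.Icc 1 n).filter Nat.Prime).filter (fun p => p < P'), (1 : ℝ) :=
          Finset.sum_le_sum fun p _ => Gc_le hb _ _
      _ ≤ ∑ p ∈ Finset.range (P' + 1), (1 : ℝ) := by
          refine Finset.sum_le_sum_of_subset_of_nonneg ?_ fun _ _ _ => zero_le_one
          intro p hp
          have := (Finset.mem_filter.mp hp).2
          exact Finset.mem_range.mpr (by omega)
      _ = P' + 1 := by simp
  have h5 : Tendsto (fun k : ℕ => (F (smp (k ^ 2)) -
      (∑ p ∈ (Finset.Icc 1 (smp (k ^ 2))).filter Nat.Prime, mq b p) -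
      ∑ p ∈ (Finset.Icc P' (smp (k ^ 2))).filter Nat.Prime, Gc b r p x) /
        ((k ^ 2 : ℕ) : ℝ)) atTop (𝓝 0) := by
    refine squeeze_zero_norm (fun k => ?_) h4
    rw [Real.norm_eq_abs, abs_div, abs_of_nonneg (show (0 : ℝ) ≤ ((k ^ 2 : ℕ) : ℝ) from
      Nat.cast_nonneg _)]
    exact div_le_div_of_nonneg_right (hsub _) (Nat.cast_nonneg _)
  have h6 := (h5.add h3).add hx
  rw [zero_add, add_zero] at h6
  refine h6.congr' ?_
  filter_upwards [eventually_ge_atTop 2] with k hk
  have hk0 : (2 : ℝ) ≤ k := by exact_mod_cast hk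
  have hlog : 0 < Real.log (smp (k ^ 2)) := by
    have := log_smp_ge (k ^ 2)
    push_cast at this
    nlinarith
  simp only [Function.comp]
  push_cast
  field_simp
  ring

end law

/-- twisting a random unit -/
lemma Low.twist {Ω : Type*} [MeasurableSpace Ω] {μ : Measure Ω} [IsProbabilityMeasure μ] {b c : ℕ}
    {s : ℕ → Ω → ℕ} (hb : 2 ≤ b) (hcop : c.Coprime b) (hs : Low b μ s) :
    LowT b c μ (fun n x => (s n x * c ^ n) % b ^ n) := by
  refine ⟨fun n => ?_, fun n x => Nat.mod_lt _ (by positivity), fun p h x => ?_, fun n hn a ha hac => ?_⟩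
  · exact (measurable_from_nat (f := fun y : ℕ => (y * c ^ n) % b ^ n)).comp (hs.meas n)
  · have h1 : s (p + h) x % b ^ p = s p x := hs.mod (by omega) hb x
    have h2 : s (p + h) x ≡ s p x [MOD b ^ p] := by
      rw [Nat.ModEq, h1, Nat.mod_eq_of_lt (hs.lt hb p x)]
    have h3 : (s (p + h) x * c ^ (p + h)) % b ^ (p + h) ≡ s (p + h) x * c ^ (p + h) [MOD b ^ p] :=
      (Nat.mod_modEq _ _).of_dvd (pow_dvd_pow b (by omega))
    calc (s (p + h) x * c ^ (p + h)) % b ^ (p + h) ≡ s (p + h) x * c ^ (p + h) [MOD b ^ p] := h3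
      _ ≡ s p x * c ^ (p + h) [MOD b ^ p] := h2.mul_right _
      _ = c ^ h * (s p x * c ^ p) := by rw [pow_add]; ring
      _ ≡ c ^ h * ((s p x * c ^ p) % b ^ p) [MOD b ^ p] := (Nat.mod_modEq _ _).symm.mul_left _
  · have h2 : 1 < b ^ n := Nat.one_lt_pow (by omega) (by omega)
    obtain ⟨w, -, hw⟩ := Nat.exists_mul_mod_eq_one_of_coprime
      (Nat.Coprime.pow_right n (Nat.Coprime.pow_left n hcop)) h2
    have hw' : c ^ n * w ≡ 1 [MOD b ^ n] := by rw [Nat.ModEq, hw, Nat.mod_eq_of_lt h2]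
    have hset : {x | (s n x * c ^ n) % b ^ n = a} = {x | s n x = (a * w) % b ^ n} := by
      ext x
      simp only [Set.mem_ofPred_eq]
      have hlt := hs.lt hb n x
      constructor
      · intro h
        have h3 : s n x * c ^ n ≡ a [MOD b ^ n] := by
          rw [Nat.ModEq, h, Nat.mod_eq_of_lt ha]
        have h4 : s n x ≡ a * w [MOD b ^ n] := by
          calc s n x = s n x * 1 := (mul_one _).symm
            _ ≡ s n x * (c ^ n * w) [MOD b ^ n] := hw'.symm.mul_left _
            _ = (s n x * c ^ n) * w := by ring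
            _ ≡ a * w [MOD b ^ n] := h3.mul_right _
        have h5 : s n x % b ^ n = (a * w) % b ^ n := h4
        rwa [Nat.mod_eq_of_lt hlt] at h5
      · intro h
        rw [h]
        have h3 : ((a * w) % b ^ n) * c ^ n ≡ a [MOD b ^ n] := by
          calc ((a * w) % b ^ n) * c ^ n ≡ (a * w) * c ^ n [MOD b ^ n] := (Nat.mod_modEq _ _).mul_right _
            _ = a * (c ^ n * w) := by ring
            _ ≡ a * 1 [MOD b ^ n] := hw'.mul_left _
            _ = a := mul_one a
        have h4 : (((a * w) % b ^ n) * c ^ n) % b ^ n = a % b ^ n := h3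
        rwa [Nat.mod_eq_of_lt ha] at h4
    rw [hset]
    apply hs.unif n hn _ (Nat.mod_lt _ (by positivity))
    rw [mod_coprime hn]
    apply Nat.Coprime.mul_left hac
    have h5 : (c ^ n * w).Coprime b := by
      have h6 : c ^ n * w ≡ 1 [MOD b] := hw'.of_dvd (dvd_pow_self b (by omega))
      rw [Nat.Coprime, h6.gcd_eq]
      simp
    exact Nat.Coprime.coprime_mul_left h5

section

variable {Ω : Type*} [MeasurableSpace Ω] {μ : Measure Ω} [IsFiniteMeasure μ] {b : ℕ}
  {s : ℕ → Ω → ℕ}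

/-- **The law for all twists at once**, conditionally on the first digit being prime to `b`. -/
theorem law_all (hb : 2 ≤ b) (hs : Full b μ s) : ∀ᵐ x ∂μ, (s 1 x).Coprime b →
    ∀ c : ℕ, 1 ≤ c → c ≤ b → c.Coprime b →
    Tendsto (fun n : ℕ => (cntR (fun p => (s p x * c ^ p) % b ^ p) n : ℝ) / Real.log n) atTop
      (𝓝 (Real.exp Real.eulerMascheroniConstant / Real.log b)) := by
  classical
  rcases eq_or_ne (μ Set.univ) 0 with h0 | h0
  · rw [Measure.measure_univ_eq_zero] at h0
    rw [h0]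
    simp
  have hc : 0 < μ.real Set.univ := by
    rw [measureReal_def]
    exact ENNReal.toReal_pos h0 (measure_ne_top _ _)
  set A : Set Ω := {x | (s 1 x).Coprime b} with hA
  have hAm : MeasurableSet A := (hs.meas 1) (MeasurableSet.of_discrete (s := {m : ℕ | m.Coprime b}))
  have hb0 : (0 : ℝ) < b := by exact_mod_cast (by omega : 0 < b)
  have hφ : (0 : ℝ) < b.totient := by exact_mod_cast Nat.totient_pos.2 (by omega)
  have hAr : μ.real A = μ.real Set.univ * (b.totient : ℝ) / b := by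
    have e : A = ⋃ a ∈ (UU b 1), {x | s 1 x = a} := by
      ext x
      simp only [hA, Set.mem_ofPred_eq, Set.mem_iUnion, exists_prop]
      constructor
      · intro h
        exact ⟨s 1 x, mem_UU.2 ⟨hs.lt hb 1 x, h⟩, rfl⟩
      · rintro ⟨a, ha, h⟩
        rw [h]
        exact (mem_UU.1 ha).2
    rw [e, measureReal_biUnion_finset]
    · have h1 : ∀ a ∈ UU b 1, μ.real {x | s 1 x = a} = μ.real Set.univ / (b : ℝ) ^ 1 := by
        intro a ha
        exact hs.unif 1 a (mem_UU.1 ha).1
      rw [Finset.sum_congr rfl h1, Finset.sum_const, nsmul_eq_mul, card_UU hb le_rfl, pow_one, pow_one]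
      ring
    · intro a _ a' _ haa
      rw [Function.onFun, Set.disjoint_left]
      intro x hx hx'
      exact haa (hx.symm.trans hx')
    · intro a _
      exact (hs.meas 1) (measurableSet_singleton a)
  have hApos : 0 < μ.real A := by rw [hAr]; positivity
  have hA0 : μ A ≠ 0 := by
    intro h
    rw [measureReal_def, h] at hApos
    simp at hApos
  haveI : IsProbabilityMeasure (ProbabilityTheory.cond μ A) :=
    ProbabilityTheory.cond_isProbabilityMeasure hA0
  have hlow : Low b (ProbabilityTheory.cond μ A) s := by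
    refine ⟨hs.meas, hs.compat, fun n hn a ha hac => ?_⟩
    have hsub : {x | s n x = a} ⊆ A := by
      intro x hx
      simp only [hA, Set.mem_ofPred_eq]
      rw [← hs.mod_b hb x hn, Set.mem_ofPred_eq.mp hx]
      rw [Nat.Coprime, (Nat.mod_modEq a b).gcd_eq]
      exact hac
    have h1 : (ProbabilityTheory.cond μ A).real {x | s n x = a} =
        (μ.real A)⁻¹ * μ.real {x | s n x = a} := by
      rw [measureReal_def, ProbabilityTheory.cond_apply hAm, Set.inter_eq_self_of_subset_right hsub,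
        ENNReal.toReal_mul, ENNReal.toReal_inv]
      rfl
    rw [h1, hs.unif n a ha, hAr, tot_pow hb hn]
    field_simp
  have h : ∀ᵐ x ∂(ProbabilityTheory.cond μ A), ∀ c : ℕ, 1 ≤ c → c ≤ b → c.Coprime b →
      Tendsto (fun n : ℕ => (cntR (fun p => (s p x * c ^ p) % b ^ p) n : ℝ) / Real.log n) atTop
      (𝓝 (Real.exp Real.eulerMascheroniConstant / Real.log b)) := by
    rw [ae_all_iff]
    intro c
    by_cases h1 : 1 ≤ c ∧ c ≤ b ∧ c.Coprime b
    · have h2 := law_low hb h1.1 h1.2.1 h1.2.2 (Low.twist hb h1.2.2 hlow)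
      filter_upwards [h2] with x hx _ _ _
      exact hx
    · exact Eventually.of_forall fun x h2 h3 h4 => absurd ⟨h2, h3, h4⟩ h1
  have h2 : ∀ᵐ x ∂(μ.restrict A), ∀ c : ℕ, 1 ≤ c → c ≤ b → c.Coprime b →
      Tendsto (fun n : ℕ => (cntR (fun p => (s p x * c ^ p) % b ^ p) n : ℝ) / Real.log n) atTop
      (𝓝 (Real.exp Real.eulerMascheroniConstant / Real.log b)) := by
    unfold ProbabilityTheory.cond at h
    rwa [Measure.ae_ennreal_smul_measure_iff] at h
    exact ENNReal.inv_ne_zero.2 (measure_ne_top _ _)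
  rwa [ae_restrict_iff' hAm] at h2

end

end Pool.Agent.Zk45.AT
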