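import Pool.Agent.W66.LP

set_option autoImplicit false

/-!
# Near pairs for the twisted low digits

`m` runs over the reduced residues modulo `b ^ q`, `r = (u m) % b ^ p` where `u` is an inverse of
`c ^ (q - p)` modulo `b ^ p`.  Then `m = c ^ (q - p) r + b ^ p t` with an integer `t`, and for a given
`t` the sieve is applied to the two linear forms `r` and `c ^ (q - p) r + b ^ p t`.
-/

open Filter Topology Finset
open scoped Real
open Pool.Agent.Helper112.E456.SieveAux (DD)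

namespace Pool.Agent.Zk45.AT

open Pool.Agent.W66 Pool.Agent.W66L
open Pool.Agent.H305R2 (roughPart roughPart_prime SM SM_pos SMz mem_SMz ZZ VV sum_rough_eq sum_le_VV
  tail_le ZZ_le_exp ZZ_nonneg VV_nonneg VV_tendsto log_nat_tendsto)

lemma near_t {b c : ℕ} (hb : 2 ≤ b) (hc : 1 ≤ c) : ∃ C : ℝ, 0 < C ∧ ∀ᶠ p : ℕ in atTop,
    ∀ h t r₀ c₀ : ℕ, h ≤ p → 0 < t → t < b ^ h →
    ((c₀ : ℤ) - ((c ^ h * r₀ : ℕ) : ℤ)).natAbs = b ^ p * t →
    (((Icc 1 (b ^ p)).filter (fun n : ℕ =>
      (Real.exp (3 * (Real.log b * p) / 4) ≤ ((n + r₀ : ℕ) : ℝ) ∧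
        Real.exp (3 * (Real.log b * p) / 4) ≤ ((c ^ h * n + c₀ : ℕ) : ℝ)) ∧
      ((roughPart p (n + r₀)).Prime ∧
        (((n + r₀) / roughPart p (n + r₀) : ℕ) : ℝ) < Real.exp (Real.log b * p / 2)) ∧
      ((roughPart (p + h) (c ^ h * n + c₀)).Prime ∧
        (((c ^ h * n + c₀) / roughPart (p + h) (c ^ h * n + c₀) : ℕ) : ℝ) <
          Real.exp (Real.log b * p / 2)))).card : ℝ) ≤
      C * (Real.log p / p) ^ 2 * (b : ℝ) ^ p := by
  obtain ⟨C0, hC0, hsv⟩ := sift_two
  have hbc : 2 ≤ b * c := by nlinarith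
  obtain ⟨C1, hC1, hrat⟩ := ratio_bound hbc
  set lb := Real.log b with hlb
  have hlb0 : 0 < lb := Real.log_pos (by exact_mod_cast hb)
  refine ⟨C0 * (2 * C1) ^ 2 / lb ^ 2, by positivity, ?_⟩
  obtain ⟨P, hP⟩ := eventually_atTop.1 hrat
  filter_upwards [eventually_ge_atTop P, eventually_ge_atTop 2] with p hpP hp2 h t r₀ c₀ hhp ht htb hdet
  have hp2' : (2 : ℝ) ≤ p := by exact_mod_cast hp2
  have hp0 : (0 : ℝ) < p := by linarith
  set q := p + h with hq
  have hbr : (2 : ℝ) ≤ b := by exact_mod_cast hb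
  have hbp : (b : ℝ) ^ p = Real.exp (lb * p) := by
    rw [mul_comm, Real.exp_nat_mul, hlb, Real.exp_log (by linarith)]
  have hH2 : 2 ≤ b ^ p := by
    calc 2 ≤ b ^ 1 := by simpa using hb
      _ ≤ b ^ p := Nat.pow_le_pow_right (by omega) (by omega)
  have htp : t < (b * c) ^ p := by
    calc t < b ^ h := htb
      _ ≤ b ^ p := Nat.pow_le_pow_right (by omega) hhp
      _ ≤ (b * c) ^ p := Nat.pow_le_pow_left (by nlinarith) p
  set S := (Icc 1 (b ^ p)).filter (fun n : ℕ =>
      (Real.exp (3 * (lb * p) / 4) ≤ ((n + r₀ : ℕ) : ℝ) ∧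
        Real.exp (3 * (lb * p) / 4) ≤ ((c ^ h * n + c₀ : ℕ) : ℝ)) ∧
      ((roughPart p (n + r₀)).Prime ∧
        (((n + r₀) / roughPart p (n + r₀) : ℕ) : ℝ) < Real.exp (lb * p / 2)) ∧
      ((roughPart q (c ^ h * n + c₀)).Prime ∧
        (((c ^ h * n + c₀) / roughPart q (c ^ h * n + c₀) : ℕ) : ℝ) <
          Real.exp (lb * p / 2))) with hS
  have hq2 : 2 ≤ q := by omega
  have hM0 : MM q (b * c) p t ≠ 0 := MM_ne hbc ht
  have hcp : 0 < c ^ h := by positivity
  have hDD : DD 1 r₀ (c ^ h) c₀ ∣ MM q (b * c) p t := by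
    have e : DD 1 r₀ (c ^ h) c₀ = c ^ h * (b ^ p * t) := by
      unfold DD
      rw [one_mul, one_mul, hdet]
    rw [e]; unfold MM
    have e2 : (b * c) ^ p * t = (c ^ h * (b ^ p * t)) * c ^ (p - h) := by
      rw [mul_pow]
      have : c ^ p = c ^ h * c ^ (p - h) := by rw [← pow_add]; congr 1; omega
      rw [this]; ring
    rw [e2]
    exact (dvd_mul_right _ _).mul_left _
  have hcastN : ((b ^ p : ℕ) : ℝ) = (b : ℝ) ^ p := by push_cast; rfl
  have hz : ((b ^ p : ℕ) : ℝ) ^ ((1 : ℝ) / 8) = Real.exp (lb * p / 8) := by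
    rw [hcastN, hbp, ← Real.exp_mul]; ring_nf
  have hzS : Real.exp (lb * p / 8) * Real.exp (lb * p / 2) ≤ Real.exp (3 * (lb * p) / 4) := by
    rw [← Real.exp_add]
    apply Real.exp_le_exp.2
    have : 0 < lb * p := by positivity
    linarith
  have hmain := hsv 1 r₀ (c ^ h) c₀ (b ^ p) (MM q (b * c) p t) one_pos hcp
    (two_dvd_MM hq2) hM0 hDD hH2 S (filter_subset _ _) (by
      intro n hn l hl hlz hlM
      have hql := lt_of_not_dvd_MM hl hlM
      rw [hS, mem_filter, mem_Icc] at hn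
      obtain ⟨⟨hn1, _⟩, ⟨hn2, hn2'⟩, hn3, hn4⟩ := hn
      rw [hz] at hlz
      have e1 : 1 * n + r₀ = n + r₀ := by ring
      rw [e1]
      constructor
      · exact no_mid_prime hn3.1 hn3.2 (hzS.trans hn2) hl (by omega) hlz
      · exact no_mid_prime hn4.1 hn4.2 (hzS.trans hn2') hl hql hlz)
  have hr1 := hP q (by omega) p t (by omega) ht htp
  have hlq : Real.log q ≤ 2 * Real.log p := by
    have hq2p : (q : ℝ) ≤ p * p := by
      have : q ≤ p * p := by nlinarith
      exact_mod_cast this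
    calc Real.log q ≤ Real.log (p * p) := Real.log_le_log (by positivity) hq2p
      _ = 2 * Real.log p := by rw [Real.log_mul hp0.ne' hp0.ne']; ring
  have hlq0 : 0 ≤ Real.log q := Real.log_natCast_nonneg q
  have hlp0 : 0 ≤ Real.log p := Real.log_natCast_nonneg p
  have hr2 : ((MM q (b * c) p t : ℕ) : ℝ) / (Nat.totient (MM q (b * c) p t) : ℝ) ≤
      2 * C1 * Real.log p := by
    calc _ ≤ C1 * Real.log q := hr1
      _ ≤ C1 * (2 * Real.log p) := by gcongr
      _ = _ := by ring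
  have hr0 : 0 ≤ ((MM q (b * c) p t : ℕ) : ℝ) / (Nat.totient (MM q (b * c) p t) : ℝ) := by positivity
  have hlogH : Real.log ((b ^ p : ℕ) : ℝ) = lb * p := by
    rw [hcastN, hbp, Real.log_exp]
  have hlbp : 0 < lb * p := by positivity
  calc (S.card : ℝ) ≤ C0 * (((MM q (b * c) p t : ℕ) : ℝ) /
        (Nat.totient (MM q (b * c) p t) : ℝ)) ^ 2 *
        (b ^ p : ℕ) / (Real.log ((b ^ p : ℕ) : ℝ)) ^ 2 := hmain
    _ ≤ C0 * (2 * C1 * Real.log p) ^ 2 * (b ^ p : ℕ) / (lb * p) ^ 2 := by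
        rw [hlogH]
        gcongr
    _ = _ := by rw [hcastN]; field_simp

/-- the joint count -/
noncomputable def JT (b p q u : ℕ) : ℝ :=
  ∑ m ∈ (range (b ^ q)).filter (fun m => m.Coprime b), rpi p ((u * m) % b ^ p) * rpi q m

theorem near_count {b c : ℕ} (hb : 2 ≤ b) (hc : 1 ≤ c) (hcb : c ≤ b) : ∃ K : ℝ, 0 < K ∧
    ∀ᶠ p : ℕ in atTop, ∀ q : ℕ, p < q → q ≤ 2 * p → ∀ u : ℕ,
    u * c ^ (q - p) ≡ 1 [MOD b ^ p] → 
    JT b p q u ≤ AA b p + K * (b : ℝ) ^ q * (Real.log p / p) ^ 2 := by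
  classical
  set lb := Real.log b with hlb
  have hlb0 : 0 < lb := Real.log_pos (by exact_mod_cast hb)
  obtain ⟨C, hC, hnt⟩ := near_t hb hc
  obtain ⟨P3, hP3⟩ := eventually_atTop.1 (ZZ_le_exp (c := lb / 16) (by positivity))
  have hsm := exp_small2 (c := lb / 8) (by positivity)
  refine ⟨2 * C + 6, by positivity, ?_⟩
  filter_upwards [hnt, eventually_ge_atTop P3, hsm, eventually_ge_atTop 2] with p hntp hpP3 hsmp hp2
    q hpq hq2p u hu
  obtain ⟨h, rfl⟩ := Nat.exists_eq_add_of_le hpq.le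
  have hhp : h ≤ p := by omega
  rw [Nat.add_sub_cancel_left] at hu
  have hp0 : (0 : ℝ) < p := by exact_mod_cast (by omega : 0 < p)
  have hbr : (2 : ℝ) ≤ b := by exact_mod_cast hb
  have hb0 : 0 < b := by omega
  have hbp : (b : ℝ) ^ p = Real.exp (lb * p) := by
    rw [mul_comm, Real.exp_nat_mul, hlb, Real.exp_log (by linarith)]
  set q := p + h with hq
  have hlbp : 0 < lb * p := by positivity
  set S := Real.exp (lb * p / 2) with hS
  have hS0 : 0 < S := Real.exp_pos _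
  have hSm : S ^ (-(1 / 2) : ℝ) = Real.exp (-(lb * p / 4)) := by
    rw [hS, ← Real.exp_mul]; ring_nf
  have hqr : (q : ℝ) ≤ 2 * p := by exact_mod_cast hq2p
  have hdecay : ∀ m : ℕ, p ≤ m → (m : ℝ) ≤ 2 * p →
      S ^ (-(1 / 2) : ℝ) * ZZ m ≤ (Real.log p / p) ^ 2 := by
    intro m hpm hm
    rw [hSm]
    calc Real.exp (-(lb * p / 4)) * ZZ m ≤ Real.exp (-(lb * p / 4)) * Real.exp (lb / 16 * m) :=
          mul_le_mul_of_nonneg_left (hP3 m (by omega)) (Real.exp_pos _).le
      _ = Real.exp (-(lb * p / 4) + lb / 16 * m) := (Real.exp_add _ _).symm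
      _ ≤ Real.exp (-(lb / 8 * p)) := by
          rw [Real.exp_le_exp]
          nlinarith
      _ ≤ _ := hsmp
  have hw0 : 0 ≤ (Real.log p / p) ^ 2 := by positivity
  set N := b ^ p with hN
  have hN0 : 0 < N := by positivity
  have hNr : (N : ℝ) = (b : ℝ) ^ p := by rw [hN]; push_cast; rfl
  have hNr0 : (0 : ℝ) < N := by exact_mod_cast hN0
  have hqN : b ^ q = N * b ^ h := by rw [hq, pow_add]
  have hqNr : (b : ℝ) ^ q = (N : ℝ) * (b : ℝ) ^ h := by rw [hNr, hq, pow_add]
  have hch : 0 < c ^ h := by positivity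
  have hchb : c ^ h ≤ b ^ h := Nat.pow_le_pow_left hcb h
  -- the first coordinate and the integer `t`
  set ρ : ℕ → ℕ := fun m => (u * m) % N with hρ
  have hρlt : ∀ m, ρ m < N := fun m => Nat.mod_lt _ hN0
  have hρc : ∀ m, (c ^ h * ρ m) ≡ m [MOD N] := by
    intro m
    have h1 : ρ m ≡ u * m [MOD N] := Nat.mod_modEq _ _
    calc c ^ h * ρ m ≡ c ^ h * (u * m) [MOD N] := h1.mul_left _
      _ = (u * c ^ h) * m := by ring
      _ ≡ 1 * m [MOD N] := hu.mul_right _
      _ = m := one_mul m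
  have hdvd : ∀ m : ℕ, (N : ℤ) ∣ (m : ℤ) - ((c ^ h * ρ m : ℕ) : ℤ) := fun m =>
    (Nat.modEq_iff_dvd.1 (hρc m))
  set τ : ℕ → ℤ := fun m => ((m : ℤ) - ((c ^ h * ρ m : ℕ) : ℤ)) / N with hτ
  have hτe : ∀ m : ℕ, (m : ℤ) = ((c ^ h * ρ m : ℕ) : ℤ) + N * τ m := by
    intro m
    have h1 := Int.mul_ediv_cancel' (hdvd m)
    simp only [hτ]
    rw [h1]
    ring
  have hτlo : ∀ m : ℕ, -((b ^ h : ℕ) : ℤ) < τ m := by
    intro m
    have h1 := hτe m
    have h2 : ((c ^ h * ρ m : ℕ) : ℤ) < ((b ^ h * N : ℕ) : ℤ) := by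
      have : c ^ h * ρ m < b ^ h * N := by
        calc c ^ h * ρ m < c ^ h * N := Nat.mul_lt_mul_of_pos_left (hρlt m) hch
          _ ≤ b ^ h * N := Nat.mul_le_mul_right _ hchb
      exact_mod_cast this
    have h3 : (0 : ℤ) ≤ (m : ℤ) := Int.natCast_nonneg m
    have h4 : -((b ^ h * N : ℕ) : ℤ) < N * τ m := by linarith
    have h5 : (0 : ℤ) < (N : ℤ) := by exact_mod_cast hN0
    by_contra hcon
    push Not at hcon
    have h6 : (N : ℤ) * τ m ≤ N * (-((b ^ h : ℕ) : ℤ)) := mul_le_mul_of_nonneg_left hcon h5.le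
    have h7 : (N : ℤ) * (-((b ^ h : ℕ) : ℤ)) = -((b ^ h * N : ℕ) : ℤ) := by push_cast; ring
    linarith
  have hτhi : ∀ m : ℕ, m < b ^ q → τ m < ((b ^ h : ℕ) : ℤ) := by
    intro m hm
    have h1 := hτe m
    have h2 : (0 : ℤ) ≤ ((c ^ h * ρ m : ℕ) : ℤ) := Int.natCast_nonneg _
    have h3 : (m : ℤ) < ((b ^ h * N : ℕ) : ℤ) := by
      rw [hqN, mul_comm] at hm
      exact_mod_cast hm
    have h5 : (0 : ℤ) < (N : ℤ) := by exact_mod_cast hN0
    by_contra hcon
    push Not at hcon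
    have h6 : (N : ℤ) * ((b ^ h : ℕ) : ℤ) ≤ N * τ m := mul_le_mul_of_nonneg_left hcon h5.le
    have h7 : (N : ℤ) * ((b ^ h : ℕ) : ℤ) = ((b ^ h * N : ℕ) : ℤ) := by push_cast; ring
    linarith
  -- the set of pairs
  set T := (range (b ^ q)).filter (fun m => m.Coprime b ∧ (roughPart p (ρ m)).Prime ∧
    (roughPart q m).Prime) with hT
  have hJC : JT b p q u = (T.card : ℝ) := by
    unfold JT
    rw [hT, Finset.card_eq_sum_ones, Finset.sum_filter, Finset.sum_filter]
    push_cast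
    refine Finset.sum_congr rfl fun m _ => ?_
    unfold rpi
    have e2 : (u * m) % b ^ p = ρ m := rfl
    rw [e2]
    by_cases h1 : m.Coprime b <;> by_cases h2 : (roughPart p (ρ m)).Prime <;>
      by_cases h3 : (roughPart q m).Prime <;> simp [h1, h2, h3]
  rw [hJC]
  set E := Real.exp (3 * (lb * p) / 4) with hE
  set T0 := T.filter (fun m => τ m = 0) with hT0
  set T1 := T.filter (fun m => ((ρ m : ℕ) : ℝ) < E) with hT1
  set T1' := T.filter (fun m : ℕ => (m : ℝ) < E) with hT1'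
  set T2 := T.filter (fun m => S ≤ ((ρ m / roughPart p (ρ m) : ℕ) : ℝ)) with hT2
  set T3 := T.filter (fun m => S ≤ ((m / roughPart q m : ℕ) : ℝ)) with hT3
  set T4 := T.filter (fun m => τ m ≠ 0 ∧ E ≤ ((ρ m : ℕ) : ℝ) ∧ E ≤ (m : ℝ) ∧
    ((ρ m / roughPart p (ρ m) : ℕ) : ℝ) < S ∧ ((m / roughPart q m : ℕ) : ℝ) < S) with hT4
  have hTsub : T ⊆ ((((T0 ∪ T1) ∪ T1') ∪ T2) ∪ T3) ∪ T4 := by
    intro m hm
    simp only [mem_union]
    by_cases h0 : τ m = 0
    · left; left; left; left; left; exact mem_filter.2 ⟨hm, h0⟩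
    by_cases h1 : ((ρ m : ℕ) : ℝ) < E
    · left; left; left; left; right; exact mem_filter.2 ⟨hm, h1⟩
    by_cases h1' : (m : ℝ) < E
    · left; left; left; right; exact mem_filter.2 ⟨hm, h1'⟩
    by_cases h2 : S ≤ ((ρ m / roughPart p (ρ m) : ℕ) : ℝ)
    · left; left; right; exact mem_filter.2 ⟨hm, h2⟩
    by_cases h3 : S ≤ ((m / roughPart q m : ℕ) : ℝ)
    · left; right; exact mem_filter.2 ⟨hm, h3⟩
    · right
      exact mem_filter.2 ⟨hm, h0, not_lt.1 h1, not_lt.1 h1', not_le.1 h2, not_le.1 h3⟩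
  have hmemT : ∀ m ∈ T, m < b ^ q ∧ m.Coprime b ∧ (roughPart p (ρ m)).Prime ∧
      (roughPart q m).Prime := by
    intro m hm
    rw [hT, mem_filter, mem_range] at hm
    exact hm
  have hpos : ∀ k m : ℕ, (roughPart k m).Prime → 1 ≤ m := by
    intro k m hm
    rcases Nat.eq_zero_or_pos m with h0 | h0
    · exfalso
      rw [h0] at hm
      unfold roughPart at hm
      simp [Nat.not_prime_one] at hm
    · exact h0
  -- T0
  have c0 : (T0.card : ℝ) ≤ AA b p := by
    rw [AA_eq_range]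
    have h1 : ∑ m ∈ (range (b ^ p)).filter (fun m => m.Coprime b), rpi p m =
        (((range (b ^ p)).filter (fun m => m.Coprime b ∧ (roughPart p m).Prime)).card : ℝ) := by
      rw [Finset.card_eq_sum_ones, Finset.sum_filter, Finset.sum_filter]
      push_cast
      refine Finset.sum_congr rfl fun m _ => ?_
      unfold rpi
      by_cases h1 : m.Coprime b
      · by_cases h2 : (roughPart p m).Prime
        · rw [if_pos h1, if_pos h2, if_pos ⟨h1, h2⟩]
        · rw [if_pos h1, if_neg h2, if_neg fun h9 => h2 h9.2]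
      · rw [if_neg h1, if_neg fun h9 => h1 h9.1]
    rw [h1]
    have hm0 : ∀ m ∈ T0, m = c ^ h * ρ m := by
      intro m hm
      rw [hT0, mem_filter] at hm
      have h2 := hτe m
      rw [hm.2, mul_zero, add_zero] at h2
      exact_mod_cast h2
    have hinj : Set.InjOn ρ (T0 : Set ℕ) := by
      intro m hm m' hm' hmm
      rw [hm0 m hm, hm0 m' hm', hmm]
    rw [← Finset.card_image_of_injOn hinj]
    have h2 : T0.image ρ ⊆ (range (b ^ p)).filter (fun m => m.Coprime b ∧ (roughPart p m).Prime) := by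
      intro x hx
      rw [mem_image] at hx
      obtain ⟨m, hm, rfl⟩ := hx
      have hm1 := hm0 m hm
      rw [hT0, mem_filter] at hm
      obtain ⟨_, h3, h4, _⟩ := hmemT m hm.1
      rw [mem_filter, mem_range]
      refine ⟨hρlt m, ?_, h4⟩
      rw [hm1] at h3
      exact Nat.Coprime.coprime_mul_left h3
    exact_mod_cast Finset.card_le_card h2
  -- pairs
  have hpair : ∀ (U : Finset ℕ) (F : Finset ℕ), (∀ m ∈ U, m < b ^ q ∧ ρ m ∈ F) →
      (U.card : ℝ) ≤ (F.card : ℝ) * (b : ℝ) ^ h := by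
    intro U F hUF
    have hinj : Set.InjOn (fun m : ℕ => (ρ m, m / N)) (U : Set ℕ) := by
      intro m _ m' _ hmm
      simp only [Prod.mk.injEq] at hmm
      have h1 : m ≡ m' [MOD N] := by
        have h2 := hρc m
        rw [hmm.1] at h2
        exact h2.symm.trans (hρc m')
      have h3 : m % N = m' % N := h1
      rw [← Nat.mod_add_div m N, ← Nat.mod_add_div m' N, h3, hmm.2]
    have hsub : U.image (fun m : ℕ => (ρ m, m / N)) ⊆ F ×ˢ (range (b ^ h)) := by
      intro x hx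
      rw [mem_image] at hx
      obtain ⟨m, hm, rfl⟩ := hx
      rw [mem_product, mem_range]
      refine ⟨(hUF m hm).2, ?_⟩
      rw [Nat.div_lt_iff_lt_mul hN0, mul_comm, ← hqN]
      exact (hUF m hm).1
    have h1 := Finset.card_le_card hsub
    rw [Finset.card_image_of_injOn hinj, card_product, card_range] at h1
    calc (U.card : ℝ) ≤ ((F.card * b ^ h : ℕ) : ℝ) := by exact_mod_cast h1
      _ = _ := by push_cast; ring
  have hexpw : Real.exp (-(lb * p / 4)) ≤ (Real.log p / p) ^ 2 := by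
    refine le_trans (Real.exp_le_exp.2 ?_) hsmp
    linarith
  have hEN : E ≤ N * (Real.log p / p) ^ 2 := by
    calc E = N * Real.exp (-(lb * p / 4)) := by
            rw [hE, hNr, hbp, ← Real.exp_add]; ring_nf
      _ ≤ _ := mul_le_mul_of_nonneg_left hexpw (by positivity)
  have hbh1 : (1 : ℝ) ≤ (b : ℝ) ^ h := one_le_pow₀ (by linarith)
  -- T1
  have c1 : (T1.card : ℝ) ≤ (b : ℝ) ^ q * (Real.log p / p) ^ 2 := by
    have h1 := hpair T1 (Ioc 0 ⌊E⌋₊) (by
      intro m hm
      rw [hT1, mem_filter] at hm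
      obtain ⟨h3, h4, h5, _⟩ := hmemT m hm.1
      refine ⟨h3, ?_⟩
      rw [mem_Ioc]
      refine ⟨hpos p _ h5, ?_⟩
      rw [Nat.le_floor_iff (Real.exp_pos _).le]
      exact hm.2.le)
    rw [Nat.card_Ioc, Nat.sub_zero] at h1
    refine h1.trans ?_
    rw [hqNr]
    have h2 : (⌊E⌋₊ : ℝ) ≤ N * (Real.log p / p) ^ 2 :=
      (Nat.floor_le (Real.exp_pos _).le).trans hEN
    calc (⌊E⌋₊ : ℝ) * (b : ℝ) ^ h ≤
        N * (Real.log p / p) ^ 2 * (b : ℝ) ^ h := mul_le_mul_of_nonneg_right h2 (by positivity)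
      _ = _ := by ring
  -- T1'
  have c1' : (T1'.card : ℝ) ≤ (b : ℝ) ^ q * (Real.log p / p) ^ 2 := by
    have h1 : T1' ⊆ Ioc 0 ⌊E⌋₊ := by
      intro m hm
      rw [hT1', mem_filter] at hm
      obtain ⟨_, _, _, h5⟩ := hmemT m hm.1
      rw [mem_Ioc]
      refine ⟨hpos q _ h5, ?_⟩
      rw [Nat.le_floor_iff (Real.exp_pos _).le]
      exact hm.2.le
    have h2 := Finset.card_le_card h1
    rw [Nat.card_Ioc, Nat.sub_zero] at h2
    calc (T1'.card : ℝ) ≤ (⌊E⌋₊ : ℝ) := by exact_mod_cast h2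
      _ ≤ E := Nat.floor_le (Real.exp_pos _).le
      _ ≤ N * (Real.log p / p) ^ 2 := hEN
      _ = N * (Real.log p / p) ^ 2 * 1 := (mul_one _).symm
      _ ≤ N * (Real.log p / p) ^ 2 * (b : ℝ) ^ h :=
          mul_le_mul_of_nonneg_left hbh1 (by positivity)
      _ = _ := by rw [hqNr]; ring
  -- T2
  have c2 : (T2.card : ℝ) ≤ (b : ℝ) ^ q * (Real.log p / p) ^ 2 := by
    have h1 := hpair T2 ((Icc 1 N).filter (fun m => (roughPart p m).Prime ∧
      S ≤ ((m / roughPart p m : ℕ) : ℝ))) (by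
      intro m hm
      rw [hT2, mem_filter] at hm
      obtain ⟨h3, h4, h5, _⟩ := hmemT m hm.1
      refine ⟨h3, ?_⟩
      rw [mem_filter, mem_Icc]
      exact ⟨⟨hpos p _ h5, (hρlt m).le⟩, h5, hm.2⟩)
    refine h1.trans ?_
    rw [hqNr]
    have h2 := large_smooth_count p N hS0
    have h3 := hdecay p le_rfl (by linarith)
    calc _ ≤ (N * (S ^ (-(1 / 2) : ℝ) * ZZ p)) * (b : ℝ) ^ h :=
          mul_le_mul_of_nonneg_right h2 (by positivity)
      _ ≤ (N * (Real.log p / p) ^ 2) * (b : ℝ) ^ h := by gcongr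
      _ = _ := by ring
  -- T3
  have c3 : (T3.card : ℝ) ≤ (b : ℝ) ^ q * (Real.log p / p) ^ 2 := by
    have h1 : T3 ⊆ (Icc 1 (b ^ q)).filter (fun m => (roughPart q m).Prime ∧
      S ≤ ((m / roughPart q m : ℕ) : ℝ)) := by
      intro m hm
      rw [hT3, mem_filter] at hm
      obtain ⟨h3, h4, _, h5⟩ := hmemT m hm.1
      rw [mem_filter, mem_Icc]
      exact ⟨⟨hpos q _ h5, h3.le⟩, h5, hm.2⟩
    have h2 := large_smooth_count q (b ^ q) hS0
    have h3 := hdecay q (by omega) hqr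
    calc (T3.card : ℝ) ≤ _ := by exact_mod_cast Finset.card_le_card h1
      _ ≤ ((b ^ q : ℕ) : ℝ) * (S ^ (-(1 / 2) : ℝ) * ZZ q) := h2
      _ ≤ ((b ^ q : ℕ) : ℝ) * (Real.log p / p) ^ 2 := by gcongr
      _ = _ := by push_cast; ring
  -- T4
  have c4 : (T4.card : ℝ) ≤ (2 * C + 2) * ((b : ℝ) ^ q * (Real.log p / p) ^ 2) := by
    have h1 := Finset.card_eq_sum_card_fiberwise (f := τ) (s := T4)
      (t := Finset.Ioo (-((b ^ h : ℕ) : ℤ)) ((b ^ h : ℕ) : ℤ)) (by
        intro m hm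
        have hm' := (mem_filter.1 (Finset.mem_coe.1 hm)).1
        rw [Finset.mem_coe, mem_Ioo]
        exact ⟨hτlo m, hτhi m (hmemT m hm').1⟩)
    rw [h1]
    push_cast
    have h2 : ∀ t ∈ Finset.Ioo (-((b ^ h : ℕ) : ℤ)) ((b ^ h : ℕ) : ℤ),
        ((T4.filter (fun m => τ m = t)).card : ℝ) ≤
        C * (Real.log p / p) ^ 2 * (b : ℝ) ^ p + 1 := by
      intro t ht
      rw [mem_Ioo] at ht
      rcases eq_or_ne t 0 with h0 | h0
      · have : T4.filter (fun m => τ m = t) = ∅ := by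
          rw [Finset.filter_eq_empty_iff]
          intro m hm hmt
          rw [hT4, mem_filter] at hm
          exact hm.2.1 (hmt.trans h0)
        rw [this]
        simp only [Finset.card_empty, Nat.cast_zero]
        positivity
      · -- the shift
        set s := (-t).toNat with hs
        set r₀ := (N * s + c ^ h - 1) / c ^ h with hr₀
        have hr1 : N * s ≤ c ^ h * r₀ := by
          have h3 := Nat.div_add_mod (N * s + c ^ h - 1) (c ^ h)
          have h4 := Nat.mod_lt (N * s + c ^ h - 1) hch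
          rw [← hr₀] at h3
          omega
        have hr2 : ∀ x : ℕ, N * s ≤ c ^ h * x → r₀ ≤ x := by
          intro x hx
          have h5 : (N * s + c ^ h - 1) / c ^ h < x + 1 := by
            rw [Nat.div_lt_iff_lt_mul hch]
            have : (x + 1) * c ^ h = c ^ h * x + c ^ h := by ring
            omega
          rw [hr₀]
          omega
        have hsneg : -(s : ℤ) ≤ t := by
          rw [hs]
          have := Int.self_le_toNat (-t)
          linarith
        have hc₀nn : (0 : ℤ) ≤ ((c ^ h * r₀ : ℕ) : ℤ) + N * t := by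
          have h3 : ((N * s : ℕ) : ℤ) ≤ ((c ^ h * r₀ : ℕ) : ℤ) := by exact_mod_cast hr1
          have h4 : (N : ℤ) * (-(s : ℤ)) ≤ N * t :=
            mul_le_mul_of_nonneg_left hsneg (Int.natCast_nonneg N)
          push_cast at h3 h4 ⊢
          linarith
        obtain ⟨c₀, hc₀⟩ := Int.eq_ofNat_of_zero_le hc₀nn
        have hc₀' : ((c ^ h * r₀ : ℕ) : ℤ) + N * t = (c₀ : ℤ) := hc₀
        have htabs : 0 < t.natAbs := Int.natAbs_pos.2 h0
        have htabs2 : t.natAbs < b ^ h := by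
          have h3 : |t| < ((b ^ h : ℕ) : ℤ) := abs_lt.2 ht
          rw [Int.abs_eq_natAbs] at h3
          exact_mod_cast h3
        have hdet : ((c₀ : ℤ) - ((c ^ h * r₀ : ℕ) : ℤ)).natAbs = b ^ p * t.natAbs := by
          rw [← hc₀', add_sub_cancel_left, Int.natAbs_mul, Int.natAbs_natCast, ← hN]
        have hnear := hntp h t.natAbs r₀ c₀ hhp htabs htabs2 hdet
        -- the members of the fibre
        have hfib : ∀ m ∈ T4.filter (fun m => τ m = t), r₀ ≤ ρ m ∧
            m = c ^ h * (ρ m - r₀) + c₀ := by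
          intro m hm
          rw [mem_filter] at hm
          have h3 := hτe m
          rw [hm.2] at h3
          have h4 : r₀ ≤ ρ m := by
            apply hr2
            rcases le_or_gt t 0 with h5 | h5
            · have h6 : (s : ℤ) = -t := Int.toNat_of_nonneg (by linarith)
              have h7 : ((N * s : ℕ) : ℤ) ≤ ((c ^ h * ρ m : ℕ) : ℤ) := by
                have h8 : (0 : ℤ) ≤ (m : ℤ) := Int.natCast_nonneg m
                have h9 : ((N * s : ℕ) : ℤ) = N * (s : ℤ) := by push_cast; ring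
                rw [h9, h6]
                linarith
              exact_mod_cast h7
            · have h6 : s = 0 := by
                rw [hs, Int.toNat_eq_zero]
                linarith
              rw [h6, mul_zero]
              exact Nat.zero_le _
          refine ⟨h4, ?_⟩
          have h5 : (m : ℤ) = ((c ^ h * (ρ m - r₀) + c₀ : ℕ) : ℤ) := by
            rw [h3]
            push_cast
            rw [Nat.cast_sub h4, ← hc₀']
            push_cast
            ring
          exact_mod_cast h5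
        set A1 := (T4.filter (fun m => τ m = t)).filter (fun m => ρ m = r₀) with hA1
        set A2 := (T4.filter (fun m => τ m = t)).filter (fun m => ¬ ρ m = r₀) with hA2
        have hA : (T4.filter (fun m => τ m = t)).card = A1.card + A2.card :=
          (Finset.card_filter_add_card_filter_not _).symm
        have hA1c : A1.card ≤ 1 := by
          rw [Finset.card_le_one]
          intro m hm m' hm'
          rw [hA1, mem_filter] at hm hm'
          rw [(hfib m hm.1).2, (hfib m' hm'.1).2, hm.2, hm'.2]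
        have hA2c : (A2.card : ℝ) ≤ C * (Real.log p / p) ^ 2 * (b : ℝ) ^ p := by
          refine le_trans ?_ hnear
          have hinj3 : Set.InjOn (fun m : ℕ => ρ m - r₀) (A2 : Set ℕ) := by
            intro m hm m' hm' hmm
            rw [Finset.mem_coe, hA2, mem_filter] at hm hm'
            simp only at hmm
            rw [(hfib m hm.1).2, (hfib m' hm'.1).2, hmm]
          rw [← Finset.card_image_of_injOn hinj3]
          have hsub : A2.image (fun m : ℕ => ρ m - r₀) ⊆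
              (Icc 1 (b ^ p)).filter (fun n : ℕ =>
                (E ≤ ((n + r₀ : ℕ) : ℝ) ∧ E ≤ ((c ^ h * n + c₀ : ℕ) : ℝ)) ∧
                ((roughPart p (n + r₀)).Prime ∧
                  (((n + r₀) / roughPart p (n + r₀) : ℕ) : ℝ) < Real.exp (lb * p / 2)) ∧
                ((roughPart (p + h) (c ^ h * n + c₀)).Prime ∧
                  (((c ^ h * n + c₀) / roughPart (p + h) (c ^ h * n + c₀) : ℕ) : ℝ) <
                    Real.exp (lb * p / 2))) := by
            intro x hx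
            rw [mem_image] at hx
            obtain ⟨m, hm, rfl⟩ := hx
            rw [hA2, mem_filter] at hm
            obtain ⟨hm1, hm2⟩ := hm
            obtain ⟨hf1, hf2⟩ := hfib m hm1
            rw [mem_filter, hT4, mem_filter] at hm1
            obtain ⟨⟨hmT, -, g1, g2, g3, g4⟩, -⟩ := hm1
            obtain ⟨h3, h4, h5, h6⟩ := hmemT m hmT
            have e1 : ρ m - r₀ + r₀ = ρ m := Nat.sub_add_cancel hf1
            have hlt := hρlt m
            rw [mem_filter, mem_Icc, e1, ← hf2]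
            have h7 : ρ m - r₀ ≤ N := (Nat.sub_le _ _).trans hlt.le
            have h8 : 1 ≤ ρ m - r₀ := Nat.sub_pos_of_lt (lt_of_le_of_ne hf1 fun hh => hm2 hh.symm)
            exact ⟨⟨h8, h7⟩, ⟨g1, g2⟩, ⟨h5, g3⟩, h6, g4⟩
          exact_mod_cast Finset.card_le_card hsub
        rw [hA]
        push_cast
        have : (A1.card : ℝ) ≤ 1 := by exact_mod_cast hA1c
        linarith
    have hcardI : ((Finset.Ioo (-((b ^ h : ℕ) : ℤ)) ((b ^ h : ℕ) : ℤ)).card : ℝ) ≤
        2 * (b : ℝ) ^ h := by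
      rw [Int.card_Ioo]
      have h3 : (((b ^ h : ℕ) : ℤ) - -((b ^ h : ℕ) : ℤ) - 1).toNat ≤ 2 * b ^ h := by
        omega
      calc ((((b ^ h : ℕ) : ℤ) - -((b ^ h : ℕ) : ℤ) - 1).toNat : ℝ) ≤ ((2 * b ^ h : ℕ) : ℝ) := by
            exact_mod_cast h3
        _ = _ := by push_cast; ring
    have hone : (1 : ℝ) ≤ (Real.log p / p) ^ 2 * (b : ℝ) ^ p := by
      have h3 : Real.exp (-(lb * p)) ≤ (Real.log p / p) ^ 2 :=
        (Real.exp_le_exp.2 (by linarith)).trans hexpw
      calc (1 : ℝ) = Real.exp (-(lb * p)) * (b : ℝ) ^ p := by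
            rw [hbp, ← Real.exp_add]; simp
        _ ≤ _ := mul_le_mul_of_nonneg_right h3 (by positivity)
    calc ∑ t ∈ Finset.Ioo (-((b ^ h : ℕ) : ℤ)) ((b ^ h : ℕ) : ℤ),
          ((T4.filter (fun m => τ m = t)).card : ℝ) ≤
          ∑ t ∈ Finset.Ioo (-((b ^ h : ℕ) : ℤ)) ((b ^ h : ℕ) : ℤ),
            (C * (Real.log p / p) ^ 2 * (b : ℝ) ^ p + 1) := Finset.sum_le_sum h2
      _ = ((Finset.Ioo (-((b ^ h : ℕ) : ℤ)) ((b ^ h : ℕ) : ℤ)).card : ℝ) *
            (C * (Real.log p / p) ^ 2 * (b : ℝ) ^ p + 1) := by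
          rw [Finset.sum_const, nsmul_eq_mul]
      _ ≤ (2 * (b : ℝ) ^ h) * (C * (Real.log p / p) ^ 2 * (b : ℝ) ^ p +
            (Real.log p / p) ^ 2 * (b : ℝ) ^ p) := by
          apply mul_le_mul hcardI _ (by positivity) (by positivity)
          linarith
      _ = _ := by rw [hqNr, hNr]; ring
  have hcard : (T.card : ℝ) ≤ T0.card + T1.card + T1'.card + T2.card + T3.card + T4.card := by
    have h1 := Finset.card_le_card hTsub
    have h2 := Finset.card_union_le ((((T0 ∪ T1) ∪ T1') ∪ T2) ∪ T3) T4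
    have h3 := Finset.card_union_le (((T0 ∪ T1) ∪ T1') ∪ T2) T3
    have h4 := Finset.card_union_le ((T0 ∪ T1) ∪ T1') T2
    have h4' := Finset.card_union_le (T0 ∪ T1) T1'
    have h5 := Finset.card_union_le T0 T1
    exact_mod_cast (by omega :
      T.card ≤ T0.card + T1.card + T1'.card + T2.card + T3.card + T4.card)
  have hY0 : 0 ≤ (b : ℝ) ^ q * (Real.log p / p) ^ 2 := by positivity
  calc (T.card : ℝ) ≤ AA b p + (b : ℝ) ^ q * (Real.log p / p) ^ 2 +
        (b : ℝ) ^ q * (Real.log p / p) ^ 2 +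
        (b : ℝ) ^ q * (Real.log p / p) ^ 2 + (b : ℝ) ^ q * (Real.log p / p) ^ 2 +
        (2 * C + 2) * ((b : ℝ) ^ q * (Real.log p / p) ^ 2) := by linarith
    _ = _ := by ring

end Pool.Agent.Zk45.AT
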